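import Mathlib

namespace Pool.Agent.H.MP_1b7163_gt

open MvPolynomial Filter Topology
open scoped ContDiff

theorem dim_eq {A B : Type} [CommRing A] [CommRing B] [Algebra A B] [Algebra.IsIntegral A B]
    [FaithfulSMul A B] [Nontrivial A] : ringKrullDim B = ringKrullDim A := by
  refine le_antisymm (Order.krullDim_le_of_strictMono (PrimeSpectrum.comap (algebraMap A B))
    fun _ _ h => Ideal.IsIntegral.comap_lt_comap h) (iSup_le fun l => ?_)
  obtain ⟨⟨P, _, _⟩⟩ := Ideal.nonempty_primesOver (S := B) l.head.asIdeal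
  obtain ⟨L, hL, -⟩ := Ideal.exists_ltSeries_of_hasGoingUp l P
  rw [← hL]
  exact Order.LTSeries.length_le_krullDim L

theorem key {F B : Type} [Field F] [CommRing B] [Algebra F B] [IsDomain B] {s : ℕ}
    (g : MvPolynomial (Fin s) F →ₐ[F] B) (h1 : Function.Injective g) (h2 : g.Finite) :
    ringKrullDim B = s ∧ Algebra.trdeg F B = s := by
  let := g.toRingHom.toAlgebra
  have : IsScalarTower F (MvPolynomial (Fin s) F) B :=
    IsScalarTower.of_algebraMap_eq' g.comp_algebraMap.symm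
  have : Module.Finite (MvPolynomial (Fin s) F) B := h2
  have : FaithfulSMul (MvPolynomial (Fin s) F) B :=
    (faithfulSMul_iff_algebraMap_injective _ _).mpr h1
  constructor
  · rw [dim_eq (A := MvPolynomial (Fin s) F)]
    simp [MvPolynomial.ringKrullDim_of_isNoetherianRing, ringKrullDim_eq_zero_of_field]
  · rw [← trdeg_add_eq F (MvPolynomial (Fin s) F), trdeg_eq_zero (A := B), add_zero,
      MvPolynomial.trdeg_of_isDomain]
    simp

theorem dim2 {O : Type} [CommRing O] [IsDomain O] [Algebra ℝ O] (x : Fin 4 → O) (a b : O)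
    (hx : ∀ i, IsAlgebraic (Algebra.adjoin ℝ ({a, b} : Set O)) (x i))
    (hi : AlgebraicIndependent ℝ ![x 2, x 3]) :
    ringKrullDim (MvPolynomial (Fin 4) ℝ ⧸ RingHom.ker (aeval (R := ℝ) x)) = 2 := by
  set I := RingHom.ker (aeval (R := ℝ) x) with hI
  haveI : I.IsPrime := RingHom.ker_isPrime _
  let A := MvPolynomial (Fin 4) ℝ ⧸ I
  let ι : A →ₐ[ℝ] O := Ideal.kerLiftAlg (aeval (R := ℝ) x)
  have hι : Function.Injective ι := Ideal.kerLiftAlg_injective _
  obtain ⟨s, g, h1, h2⟩ := exists_finite_inj_algHom_of_fg ℝ A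
  obtain ⟨k1, k2⟩ := key g h1 h2
  have hs : s = 2 := by
    apply le_antisymm
    · let K := (Subalgebra.algebraicClosure (Algebra.adjoin ℝ ({a, b} : Set O)) O).restrictScalars ℝ
      have hK : ∀ z : A, ι z ∈ K := by
        intro z
        obtain ⟨p, rfl⟩ := Ideal.Quotient.mk_surjective z
        have : ι (Ideal.Quotient.mk I p) = aeval x p := Ideal.kerLiftAlg_mk _ _
        rw [this]
        have h3 : Algebra.adjoin ℝ (Set.range x) ≤ K := Algebra.adjoin_le (by
          rintro _ ⟨i, rfl⟩; exact hx i)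
        apply h3
        rw [Algebra.adjoin_range_eq_range_aeval]
        exact ⟨p, rfl⟩
      let y : Fin s → O := fun i => ι (g (X i))
      have hy : AlgebraicIndependent ℝ y := by
        rw [algebraicIndependent_iff_injective_aeval]
        have : aeval y = ι.comp g := by ext i; simp [y]
        rw [this]; exact hι.comp h1
      have hind : (AlgebraicIndependent.matroid ℝ O).Indep (Set.range y) := hy.to_subtype_range
      have hsub : Set.range y ⊆ (AlgebraicIndependent.matroid ℝ O).closure {a, b} := by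
        rw [AlgebraicIndependent.matroid_closure_eq]
        rintro _ ⟨i, rfl⟩; exact hK _
      have h4 := hind.encard_le_eRk_of_subset hsub
      rw [Matroid.eRk_closure_eq] at h4
      have h5 := h4.trans ((Matroid.eRk_le_encard _ _).trans (Set.encard_insert_le _ _))
      have h7 := hy.injective.encard_range.trans h5
      rw [Set.encard_singleton] at h7
      simp only [ENat.card_eq_coe_fintype_card, Fintype.card_fin] at h7
      exact_mod_cast h7
    · have hz : AlgebraicIndependent ℝ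
          ![(Ideal.Quotient.mk I (X 2) : A), (Ideal.Quotient.mk I (X 3) : A)] := by
        apply AlgebraicIndependent.of_comp ι
        convert hi using 1
        ext i
        have e : ∀ j, ι (Ideal.Quotient.mk I (X j)) = x j := fun j =>
          (Ideal.kerLiftAlg_mk _ _).trans (aeval_X _ _)
        fin_cases i
        · exact e 2
        · exact e 3
      have h6 := hz.cardinalMk_le_trdeg
      rw [k2] at h6
      simpa using h6
  rw [k1, hs]; rfl

/-- real-analytic functions on the plane -/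
def O : Subalgebra ℝ (ℝ × ℝ → ℝ) where
  carrier := {f | ContDiff ℝ ω f}
  mul_mem' {f g} hf hg := ContDiff.mul (show ContDiff ℝ ω f from hf) (show ContDiff ℝ ω g from hg)
  add_mem' {f g} hf hg := ContDiff.add (show ContDiff ℝ ω f from hf) (show ContDiff ℝ ω g from hg)
  algebraMap_mem' c := show ContDiff ℝ ω (fun _ : ℝ × ℝ => c) from contDiff_const

instance : NoZeroDivisors O where
  eq_zero_or_eq_zero_of_mul_eq_zero := by
    rintro ⟨f, hf⟩ ⟨g, hg⟩ h
    by_cases h0 : f = 0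
    · left; exact Subtype.ext h0
    right
    obtain ⟨p, hp⟩ := Function.ne_iff.mp h0
    have hf' : ContDiff ℝ ω f := hf
    have hg' : ContDiff ℝ ω g := hg
    have h1 : ∀ᶠ q in 𝓝 p, f q ≠ 0 := hf'.continuous.continuousAt.eventually_ne hp
    have h2 : g =ᶠ[𝓝 p] 0 := h1.mono fun q hq =>
      (mul_eq_zero.mp (congrFun (congrArg Subtype.val h) q)).resolve_left hq
    apply Subtype.ext
    funext q
    exact hg'.analyticOnNhd.eqOn_zero_of_preconnected_of_eventuallyEq_zero (U := Set.univ)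
      isPreconnected_univ (Set.mem_univ p) h2 (Set.mem_univ q)

instance : Nontrivial O := ⟨0, 1, fun h => by
  have := congrFun (congrArg Subtype.val h) 0
  simp at this⟩

instance : IsDomain O := NoZeroDivisors.to_isDomain _

noncomputable def sO : O := ⟨fun p => Real.sin p.1,
  show ContDiff ℝ ω (fun p : ℝ × ℝ => Real.sin p.1) from Real.contDiff_sin.comp contDiff_fst⟩
def rO : O := ⟨fun p => p.2, show ContDiff ℝ ω (fun p : ℝ × ℝ => p.2) from contDiff_snd⟩

/-- analytic and algebraic over the functions `sin x`, `y` -/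
def Alg (f : ℝ × ℝ → ℝ) : Prop :=
  ∃ h : f ∈ O, IsAlgebraic (Algebra.adjoin ℝ ({sO, rO} : Set O)) (⟨f, h⟩ : O)

theorem Alg.cd {f : ℝ × ℝ → ℝ} (h : Alg f) : ContDiff ℝ ω f := h.1

theorem Alg.add {f g : ℝ × ℝ → ℝ} (hf : Alg f) (hg : Alg g) : Alg fun p => f p + g p :=
  ⟨O.add_mem hf.1 hg.1, hf.2.add hg.2⟩
theorem Alg.mul {f g : ℝ × ℝ → ℝ} (hf : Alg f) (hg : Alg g) : Alg fun p => f p * g p :=
  ⟨O.mul_mem hf.1 hg.1, hf.2.mul hg.2⟩
theorem Alg.sub {f g : ℝ × ℝ → ℝ} (hf : Alg f) (hg : Alg g) : Alg fun p => f p - g p :=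
  ⟨O.sub_mem hf.1 hg.1, hf.2.sub hg.2⟩
theorem Alg.neg {f : ℝ × ℝ → ℝ} (hf : Alg f) : Alg fun p => -f p :=
  ⟨O.neg_mem hf.1, hf.2.neg⟩
theorem Alg.pow {f : ℝ × ℝ → ℝ} (hf : Alg f) (n : ℕ) : Alg fun p => f p ^ n :=
  ⟨O.pow_mem hf.1 n, hf.2.pow n⟩
theorem Alg.const (c : ℝ) : Alg fun _ => c :=
  ⟨O.algebraMap_mem c, isAlgebraic_algebraMap
    (algebraMap ℝ (Algebra.adjoin ℝ ({sO, rO} : Set O)) c)⟩
theorem Alg.sin : Alg fun p => Real.sin p.1 :=
  ⟨sO.2, isAlgebraic_algebraMap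
    (⟨sO, Algebra.subset_adjoin (by simp)⟩ : Algebra.adjoin ℝ ({sO, rO} : Set O))⟩
theorem Alg.snd : Alg fun p => p.2 :=
  ⟨rO.2, isAlgebraic_algebraMap
    (⟨rO, Algebra.subset_adjoin (by simp)⟩ : Algebra.adjoin ℝ ({sO, rO} : Set O))⟩
theorem Alg.of_sq {f : ℝ × ℝ → ℝ} (h : ContDiff ℝ ω f) (h2 : Alg fun p => f p ^ 2) : Alg f :=
  ⟨h, IsAlgebraic.of_pow two_pos h2.2⟩
theorem Alg.cos : Alg fun p => Real.cos p.1 :=
  Alg.of_sq (Real.contDiff_cos.comp contDiff_fst) (by
    simp only [Real.cos_sq']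
    exact (Alg.const 1).sub (Alg.sin.pow 2))
theorem Alg.sqrt {f : ℝ × ℝ → ℝ} (hf : Alg f) (h : ∀ p, 0 < f p) : Alg fun p => √(f p) :=
  Alg.of_sq (hf.cd.sqrt fun p => (h p).ne') (by
    simp only [fun p => Real.sq_sqrt (h p).le]; exact hf)
theorem Alg.div {f g : ℝ × ℝ → ℝ} (hf : Alg f) (hg : Alg g) (h : ∀ p, g p ≠ 0) :
    Alg fun p => f p / g p := by
  have h1 : (fun p => f p / g p) ∈ O := hf.cd.div hg.cd h
  refine ⟨h1, IsAlgebraic.of_mul (y := ⟨g, hg.1⟩) (mem_nonZeroDivisors_of_ne_zero fun h0 =>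
    h 0 (congrFun (congrArg Subtype.val h0) 0)) hg.2 ?_⟩
  have e : (⟨g, hg.1⟩ * ⟨fun p => f p / g p, h1⟩ : O) = ⟨f, hf.1⟩ := by
    apply Subtype.ext
    funext p
    exact mul_div_cancel₀ _ (h p)
  rw [e]; exact hf.2

theorem algebraic (x : Fin 4 → ℝ × ℝ → ℝ) (hx : ∀ i, Alg (x i)) {δ : ℝ} (hδ : 0 < δ)
    (hbox : ∀ y ∈ Set.Icc 0 δ, ∀ z ∈ Set.Icc (1 : ℝ) 4, ∃ p, x 2 p = y ∧ x 3 p = z) :
    ∃ P : Finset (MvPolynomial (Fin 4) ℝ), (∀ p, ∀ f ∈ P, eval (fun i => x i p) f = 0) ∧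
      ringKrullDim (MvPolynomial (Fin 4) ℝ ⧸
        vanishingIdeal ℝ {y : Fin 4 → ℝ | ∀ f ∈ P, eval y f = 0}) = 2 := by
  let ξ : Fin 4 → O := fun i => ⟨x i, (hx i).1⟩
  let ev : ℝ × ℝ → O →ₐ[ℝ] ℝ := fun p => (Pi.evalAlgHom ℝ (fun _ => ℝ) p).comp O.val
  have hev : ∀ {n : ℕ} (ζ : Fin n → O) (f : MvPolynomial (Fin n) ℝ) p,
      (aeval ζ f : O).1 p = eval (fun i => (ζ i).1 p) f := by
    intro n ζ f p
    exact comp_aeval_apply ζ (ev p) f
  have hi : AlgebraicIndependent ℝ ![ξ 2, ξ 3] := by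
    rw [algebraicIndependent_iff]
    intro f hf
    refine funext_set ![Set.Icc 0 δ, Set.Icc 1 4] (fun i => ?_) fun y hy => ?_
    · fin_cases i
      · exact Set.Icc_infinite hδ
      · exact Set.Icc_infinite (by norm_num : (1 : ℝ) < 4)
    · obtain ⟨p, h2, h3⟩ := hbox (y 0) (hy 0 trivial) (y 1) (hy 1 trivial)
      have := hev ![ξ 2, ξ 3] f p
      rw [hf] at this
      rw [map_zero]
      refine Eq.trans ?_ this.symm
      congr 2
      ext i
      fin_cases i
      · exact h2.symm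
      · exact h3.symm
  have hd := dim2 ξ sO rO (fun i => (hx i).2) hi
  obtain ⟨P, hP⟩ := IsNoetherian.noetherian (RingHom.ker (aeval (R := ℝ) ξ))
  have hmem : ∀ f, f ∈ RingHom.ker (aeval (R := ℝ) ξ) ↔ ∀ p, eval (fun i => x i p) f = 0 := by
    intro f
    rw [RingHom.mem_ker, Subtype.ext_iff, _root_.funext_iff]
    exact forall_congr' fun p => by rw [hev]; rfl
  have h1 : ∀ p, ∀ f ∈ P, eval (fun i => x i p) f = 0 := fun p f hf =>
    (hmem f).mp (hP ▸ Submodule.subset_span hf) p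
  refine ⟨P, h1, ?_⟩
  have : vanishingIdeal ℝ {y : Fin 4 → ℝ | ∀ f ∈ P, eval y f = 0} =
      RingHom.ker (aeval (R := ℝ) ξ) := by
    apply le_antisymm
    · intro f hf
      exact (hmem f).mpr fun p => hf _ (h1 p)
    · rw [← hP]
      exact Submodule.span_le.mpr fun f hf y hy => hy f hf
  rw [this]; exact hd

end Pool.Agent.H.MP_1b7163_gt
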