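import Pool.Agent.H.MP_1b7163_gt.A

namespace Pool.Agent.H.MP_1b7163_gt

open Real
open scoped ContDiff

def c0 (s c : ℝ) : Fin 3 → ℝ := ![s * c, s ^ 3 * c, s ^ 6]
def P (s c : ℝ) : Fin 3 → ℝ := ![c ^ 2 - s ^ 2, 3 * s ^ 2 * c ^ 2 - s ^ 4, 6 * s ^ 5 * c]
def P1 (s c : ℝ) : Fin 3 → ℝ :=
  ![-4 * s * c, 6 * s * c ^ 3 - 10 * s ^ 3 * c, 30 * s ^ 4 * c ^ 2 - 6 * s ^ 6]
def B (s c : ℝ) : Fin 3 → ℝ :=
  ![54 * s ^ 5 * c ^ 4 + 12 * s ^ 7 * c ^ 2 + 6 * s ^ 9,
    -30 * s ^ 3 * c ^ 4 + 12 * s ^ 5 * c ^ 2 - 6 * s ^ 7,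
    6 * c ^ 5 - 4 * s ^ 2 * c ^ 3 + 6 * s ^ 4 * c]
def B1 (s c : ℝ) : Fin 3 → ℝ :=
  ![270 * s ^ 4 * c ^ 5 - 132 * s ^ 6 * c ^ 3 + 30 * s ^ 8 * c,
    -90 * s ^ 2 * c ^ 5 + 180 * s ^ 4 * c ^ 3 - 66 * s ^ 6 * c,
    -38 * s * c ^ 4 + 36 * s ^ 3 * c ^ 2 - 6 * s ^ 5]
def nu (s c : ℝ) : ℝ :=
  540 * c ^ 8 + 240 * s ^ 2 * c ^ 6 + 360 * s ^ 4 * c ^ 4 - 144 * s ^ 6 * c ^ 2 - 36 * s ^ 8
def dot (u v : Fin 3 → ℝ) : ℝ := u 0 * v 0 + u 1 * v 1 + u 2 * v 2
def cr (u v : Fin 3 → ℝ) : Fin 3 → ℝ :=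
  ![u 1 * v 2 - u 2 * v 1, u 2 * v 0 - u 0 * v 2, u 0 * v 1 - u 1 * v 0]

theorem idP (s c : ℝ) (i : Fin 3) : P1 s c i * dot (P s c) (P s c) - P s c i * dot (P s c) (P1 s c)
    = s * cr (B s c) (P s c) i := by
  fin_cases i <;> simp [P, P1, B, dot, cr] <;> ring

theorem idB (s c : ℝ) (i : Fin 3) : B1 s c i * dot (B s c) (B s c) - B s c i * dot (B s c) (B1 s c)
    = -(s ^ 2 * nu s c) * cr (B s c) (P s c) i := by
  fin_cases i <;> simp [P, B1, B, dot, cr, nu] <;> ring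

theorem idBP (s c : ℝ) : dot (B s c) (P s c) = 0 := by
  simp [P, B, dot]; ring

theorem dot_pos {u : Fin 3 → ℝ} (h : u 0 = 0 → u 1 = 0 → u 2 = 0 → False) : 0 < dot u u := by
  unfold dot
  by_contra h0
  apply h <;> nlinarith [mul_self_nonneg (u 0), mul_self_nonneg (u 1), mul_self_nonneg (u 2)]

theorem Ppos {s c : ℝ} (h : s ^ 2 + c ^ 2 = 1) : 0 < dot (P s c) (P s c) := by
  apply dot_pos
  intro h0 h1 _
  simp only [P, Matrix.cons_val] at h0 h1
  have e1 : c ^ 2 = 1 / 2 := by linarith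
  have e2 : s ^ 2 = 1 / 2 := by linarith
  have e3 : s ^ 4 = (s ^ 2) ^ 2 := by ring
  rw [e3, e1, e2] at h1
  norm_num at h1

theorem Bpos {s c : ℝ} (h : s ^ 2 + c ^ 2 = 1) : 0 < dot (B s c) (B s c) := by
  apply dot_pos
  intro h0 _ h2
  simp only [B, Matrix.cons_val] at h0 h2
  have e : c * (6 * (c ^ 2) ^ 2 - 4 * s ^ 2 * c ^ 2 + 6 * (s ^ 2) ^ 2) = 0 := by linarith
  rcases mul_eq_zero.mp e with e | e
  · subst e
    have : s = 0 := by
      have : s ^ 9 = 0 := by linarith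
      exact pow_eq_zero_iff (by norm_num) |>.mp this
    subst this
    norm_num at h
  · nlinarith [sq_nonneg (s ^ 2 - c ^ 2)]

theorem dc0 (i : Fin 3) (x : ℝ) :
    HasDerivAt (fun y => c0 (sin y) (cos y) i) (P (sin x) (cos x) i) x := by
  fin_cases i <;> simp only [c0, P, Fin.reduceFinMk, Matrix.cons_val] <;>
    refine (DifferentiableAt.hasDerivAt (by fun_prop)).congr_deriv ?_ <;>
    simp (disch := fun_prop) <;> ring

theorem dP (i : Fin 3) (x : ℝ) :
    HasDerivAt (fun y => P (sin y) (cos y) i) (P1 (sin x) (cos x) i) x := by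
  fin_cases i <;> simp only [P1, P, Fin.reduceFinMk, Matrix.cons_val] <;>
    refine (DifferentiableAt.hasDerivAt (by fun_prop)).congr_deriv ?_ <;>
    simp (disch := fun_prop) <;> ring

theorem dB (i : Fin 3) (x : ℝ) :
    HasDerivAt (fun y => B (sin y) (cos y) i) (B1 (sin x) (cos x) i) x := by
  fin_cases i <;> simp only [B1, B, Fin.reduceFinMk, Matrix.cons_val] <;>
    refine (DifferentiableAt.hasDerivAt (by fun_prop)).congr_deriv ?_ <;>
    simp (disch := fun_prop) <;> ring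

theorem dnorm {V : ℝ → Fin 3 → ℝ} {W : Fin 3 → ℝ} {x : ℝ} (h : ∀ i, HasDerivAt (fun y => V y i) (W i) x)
    (h0 : 0 < dot (V x) (V x)) (i : Fin 3) :
    HasDerivAt (fun y => V y i / √(dot (V y) (V y)))
      ((W i * dot (V x) (V x) - V x i * dot (V x) W) / √(dot (V x) (V x)) ^ 3) x := by
  have h1 : HasDerivAt (fun y => dot (V y) (V y)) (2 * dot (V x) W) x :=
    ((((h 0).mul (h 0)).add ((h 1).mul (h 1))).add ((h 2).mul (h 2))).congr_deriv
      (by unfold dot; ring)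
  have h2 := sqrt_pos.mpr h0
  refine ((h i).div (h1.sqrt h0.ne') h2.ne').congr_deriv ?_
  have h3 := sq_sqrt h0.le
  generalize √(dot (V x) (V x)) = n at h2 h3
  rw [← h3]
  field_simp

noncomputable def rho (x : ℝ) : ℝ := √(dot (P (sin x) (cos x)) (P (sin x) (cos x)))
noncomputable def nn (x : ℝ) : ℝ := √(dot (B (sin x) (cos x)) (B (sin x) (cos x)))
noncomputable def tt (x : ℝ) (i : Fin 3) : ℝ := P (sin x) (cos x) i / rho x
noncomputable def eta (x : ℝ) : ℝ := sin x * nu (sin x) (cos x) * rho x ^ 3 / nn x ^ 3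
noncomputable def DD (x : ℝ) (i : Fin 3) : ℝ := B (sin x) (cos x) i / nn x + eta x * tt x i

theorem rho_pos (x : ℝ) : 0 < rho x := sqrt_pos.mpr (Ppos (sin_sq_add_cos_sq x))
theorem nn_pos (x : ℝ) : 0 < nn x := sqrt_pos.mpr (Bpos (sin_sq_add_cos_sq x))

theorem alg_c0 (i : Fin 3) : Alg fun p => c0 (sin p.1) (cos p.1) i := by
  fin_cases i <;> simp only [c0, Fin.reduceFinMk, Matrix.cons_val] <;>
    repeat' first | exact Alg.sin | exact Alg.cos | exact Alg.const _ | apply Alg.add | apply Alg.neg | apply Alg.mul | apply Alg.pow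
theorem alg_P (i : Fin 3) : Alg fun p => P (sin p.1) (cos p.1) i := by
  fin_cases i <;> simp only [P, Fin.reduceFinMk, Matrix.cons_val] <;>
    repeat' first | exact Alg.sin | exact Alg.cos | exact Alg.const _ | apply Alg.add | apply Alg.neg | apply Alg.mul | apply Alg.pow
theorem alg_B (i : Fin 3) : Alg fun p => B (sin p.1) (cos p.1) i := by
  fin_cases i <;> simp only [B, Fin.reduceFinMk, Matrix.cons_val] <;>
    repeat' first | exact Alg.sin | exact Alg.cos | exact Alg.const _ | apply Alg.add | apply Alg.neg | apply Alg.mul | apply Alg.pow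
theorem alg_nu : Alg fun p => nu (sin p.1) (cos p.1) := by
  simp only [nu]
  repeat' first | exact Alg.sin | exact Alg.cos | exact Alg.const _ | apply Alg.add | apply Alg.neg | apply Alg.mul | apply Alg.pow
theorem alg_dot {V : ℝ × ℝ → Fin 3 → ℝ} (h : ∀ i, Alg fun p => V p i) :
    Alg fun p => dot (V p) (V p) :=
  (((h 0).mul (h 0)).add ((h 1).mul (h 1))).add ((h 2).mul (h 2))
theorem alg_rho : Alg fun p => rho p.1 :=
  (alg_dot alg_P).sqrt fun p => Ppos (sin_sq_add_cos_sq p.1)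
theorem alg_nn : Alg fun p => nn p.1 :=
  (alg_dot alg_B).sqrt fun p => Bpos (sin_sq_add_cos_sq p.1)
theorem alg_eta : Alg fun p => eta p.1 :=
  ((Alg.sin.mul alg_nu).mul (alg_rho.pow 3)).div (alg_nn.pow 3) fun p => (pow_pos (nn_pos p.1) 3).ne'
theorem alg_DD (i : Fin 3) : Alg fun p => DD p.1 i :=
  ((alg_B i).div alg_nn fun p => (nn_pos p.1).ne').add
    (alg_eta.mul ((alg_P i).div alg_rho fun p => (rho_pos p.1).ne'))

theorem Alg.cd1 {f : ℝ → ℝ} (h : Alg fun p => f p.1) : ContDiff ℝ ∞ f :=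
  (h.cd.of_le le_top).comp (f := fun x : ℝ => (x, (0 : ℝ))) (by fun_prop)

theorem dDD (i : Fin 3) (x : ℝ) : HasDerivAt (fun y => DD y i) (deriv eta x * tt x i) x := by
  have h1 := dnorm (fun i => dB i x) (Bpos (sin_sq_add_cos_sq x)) i
  have h2 := dnorm (fun i => dP i x) (Ppos (sin_sq_add_cos_sq x)) i
  have h3 : HasDerivAt eta (deriv eta x) x :=
    (alg_eta.cd1.differentiable (by simp) x).hasDerivAt
  rw [idB] at h1
  rw [idP] at h2
  refine (h1.add (h3.mul h2)).congr_deriv ?_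
  have := rho_pos x
  have := nn_pos x
  change _ / nn x ^ 3 + (_ * tt x i + eta x * (_ / rho x ^ 3)) = _
  unfold eta
  field_simp
  ring

theorem tt_tt (x : ℝ) : dot (tt x) (tt x) = 1 := by
  have h : rho x ^ 2 = _ := sq_sqrt (Ppos (sin_sq_add_cos_sq x)).le
  have := rho_pos x
  unfold dot tt at *
  field_simp
  linarith

theorem DD_tt (x : ℝ) : dot (DD x) (tt x) = eta x := by
  have h1 := tt_tt x
  have h2 := idBP (sin x) (cos x)
  have := rho_pos x
  have := nn_pos x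
  have h3 : dot (fun i => B (sin x) (cos x) i / nn x) (tt x) = 0 := by
    unfold dot tt at *
    field_simp
    linarith
  unfold dot DD at *
  linear_combination eta x * h1 + h3

theorem DD_DD (x : ℝ) : dot (DD x) (DD x) = 1 + eta x ^ 2 := by
  have h1 := tt_tt x
  have h2 := DD_tt x
  have h : nn x ^ 2 = _ := sq_sqrt (Bpos (sin_sq_add_cos_sq x)).le
  have := nn_pos x
  have h3 : dot (fun i => B (sin x) (cos x) i / nn x) (fun i => B (sin x) (cos x) i / nn x) = 1 := by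
    unfold dot at *
    field_simp
    linarith
  unfold dot DD at *
  linear_combination 2 * eta x * h2 + h3 - eta x ^ 2 * h1

theorem P_neg (s c : ℝ) : P (-s) (-c) = P s c := by
  ext i; fin_cases i <;> simp [P] <;> ring
theorem B_neg (s c : ℝ) : B (-s) (-c) = -B s c := by
  ext i; fin_cases i <;> simp [B] <;> ring
theorem c0_neg (s c : ℝ) : c0 (-s) (-c) = c0 s c := by
  ext i; fin_cases i <;> simp [c0] <;> ring
theorem rho_pi (x : ℝ) : rho (x + π) = rho x := by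
  simp only [rho, sin_add_pi, cos_add_pi, P_neg]
theorem nn_pi (x : ℝ) : nn (x + π) = nn x := by
  simp [nn, sin_add_pi, cos_add_pi, B_neg, dot]
theorem eta_pi (x : ℝ) : eta (x + π) = -eta x := by
  simp only [eta, sin_add_pi, cos_add_pi, rho_pi, nn_pi, nu]; ring
theorem DD_pi (x : ℝ) (i : Fin 3) : DD (x + π) i = -DD x i := by
  simp only [DD, tt, sin_add_pi, cos_add_pi, rho_pi, nn_pi, eta_pi, P_neg, B_neg, Pi.neg_apply]
  ring

theorem DD_zero : DD 0 2 = 1 := by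
  have : nn 0 = 6 := by
    simp only [nn, dot, B, sin_zero, cos_zero, Matrix.cons_val]
    rw [sqrt_eq_iff_mul_self_eq (by norm_num) (by norm_num)]; norm_num
  simp [DD, eta, this, B]

theorem c0_inj {x y : ℝ} (hx : x ∈ Set.Icc 0 π) (hy : y ∈ Set.Icc 0 π)
    (h : c0 (sin x) (cos x) = c0 (sin y) (cos y)) : y = x ∨ y = x + π ∨ x = y + π := by
  have h0 := congrFun h 0
  have h2 := congrFun h 2
  simp only [c0, Matrix.cons_val] at h0 h2
  have hs : sin x = sin y :=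
    (pow_left_inj₀ (sin_nonneg_of_mem_Icc hx) (sin_nonneg_of_mem_Icc hy) (by norm_num)).mp h2
  by_cases h1 : sin x = 0
  · have z : ∀ u ∈ Set.Icc 0 π, sin u = 0 → u = 0 ∨ u = π := fun u hu e => by
      by_contra hc
      push Not at hc
      exact (sin_pos_of_pos_of_lt_pi (lt_of_le_of_ne hu.1 hc.1.symm) (lt_of_le_of_ne hu.2 hc.2)).ne' e
    rcases z x hx h1 with rfl | rfl <;> rcases z y hy (hs ▸ h1) with rfl | rfl <;> simp
  · left
    rw [← hs] at h0
    exact (injOn_cos hx hy (mul_left_cancel₀ h1 h0)).symm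

end Pool.Agent.H.MP_1b7163_gt
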