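import Pool.Agent.H.MP_1b7163_gt.B

namespace Pool.Agent.H.MP_1b7163_gt

open Real Filter Topology Set
open scoped ContDiff

theorem prim {f : ℝ → ℝ} (hf : ContDiff ℝ ∞ f) :
    ∃ F : ℝ → ℝ, ContDiff ℝ ∞ F ∧ ∀ x, HasDerivAt F (f x) x := by
  have h : ∀ x, HasDerivAt (fun u => ∫ t in (0 : ℝ)..u, f t) (f x) x := fun x =>
    (hf.continuous.integral_hasStrictDerivAt 0 x).hasDerivAt
  refine ⟨_, ?_, h⟩
  rw [contDiff_infty_iff_deriv]
  refine ⟨fun x => (h x).differentiableAt, ?_⟩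
  rw [show deriv (fun u => ∫ t in (0 : ℝ)..u, f t) = f from funext fun x => (h x).deriv]
  exact hf

theorem loc_inj {f : ℝ × ℝ → Fin 3 → ℝ} (hf : ContDiff ℝ ∞ f) (a : ℝ × ℝ)
    (hi : Function.Injective (fderiv ℝ f a)) :
    ∀ᶠ z : (ℝ × ℝ) × (ℝ × ℝ) in 𝓝 (a, a), f z.1 = f z.2 → z.1 = z.2 := by
  have h1 := (hf.contDiffAt (x := a)).hasStrictFDerivAt (by simp)
  obtain ⟨K, hK, h2⟩ := (fderiv ℝ f a).toLinearMap.exists_antilipschitzWith
    (LinearMap.ker_eq_bot.mpr hi)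
  have hK' : (0 : ℝ) < K := hK
  have h3 := h1.isLittleO.def (c := 1 / (2 * K)) (by positivity)
  refine h3.mono fun z hz e => ?_
  have h4 := h2.le_mul_dist z.1 z.2
  rw [e, sub_self, zero_sub, norm_neg] at hz
  rw [dist_eq_norm, dist_eq_norm, ← map_sub] at h4
  have h5 : (K : ℝ) * (1 / (2 * K) * ‖z.1 - z.2‖) = ‖z.1 - z.2‖ / 2 := by field_simp
  have h6 := mul_le_mul_of_nonneg_left hz hK'.le
  have h7 : ‖z.1 - z.2‖ ≤ 0 := by
    have : ‖z.1 - z.2‖ ≤ K * ‖(fderiv ℝ f a) (z.1 - z.2)‖ := h4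
    linarith
  exact sub_eq_zero.mp (norm_le_zero_iff.mp h7)

theorem diffeo {Ψ : ℝ × ℝ → ℝ × ℝ} (h : ContDiff ℝ ∞ Ψ) (hb : Function.Bijective Ψ)
    (hi : ∀ p, Function.Injective (fderiv ℝ Ψ p)) :
    ∃ e : ℝ × ℝ ≃ₜ ℝ × ℝ, (e : ℝ × ℝ → ℝ × ℝ) = Ψ ∧ ContDiff ℝ ∞ e.symm := by
  let L : ℝ × ℝ → (ℝ × ℝ) ≃L[ℝ] (ℝ × ℝ) := fun p =>
    (LinearEquiv.ofInjectiveEndo (fderiv ℝ Ψ p).toLinearMap (hi p)).toContinuousLinearEquiv
  have hL : ∀ p, HasStrictFDerivAt Ψ (L p : (ℝ × ℝ) →L[ℝ] (ℝ × ℝ)) p := fun p => by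
    have : (L p : (ℝ × ℝ) →L[ℝ] (ℝ × ℝ)) = fderiv ℝ Ψ p := ContinuousLinearMap.ext fun _ => rfl
    rw [this]
    exact (h.contDiffAt (x := p)).hasStrictFDerivAt (by simp)
  let e : ℝ × ℝ ≃ₜ ℝ × ℝ := (Equiv.ofBijective Ψ hb).toHomeomorphOfContinuousOpen h.continuous
    (isOpenMap_of_hasStrictFDerivAt_equiv hL)
  exact ⟨e, rfl, e.contDiff_symm (fun p => (hL p).hasFDerivAt) h⟩

def g (a : ℝ) (p : ℝ × ℝ) : ℝ × ℝ := (p.1 + a, -p.2)

def Ev : ℝ × ℝ → ℝ × ℝ → Prop := Relation.EqvGen fun p q => q = g π p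

theorem Ev.inv {α : Type} {h : ℝ × ℝ → α} (hh : ∀ p, h (g π p) = h p) {p q : ℝ × ℝ} (e : Ev p q) :
    h p = h q := by
  induction e with
  | rel p q e => rw [e, hh]
  | refl => rfl
  | symm _ _ _ ih => exact ih.symm
  | trans _ _ _ _ _ i1 i2 => exact i1.trans i2

theorem red (p : ℝ × ℝ) : ∃ q, Ev p q ∧ q.1 ∈ Icc 0 π := by
  have : ∀ n : ℤ, ∃ q, Ev p q ∧ q.1 = p.1 + n • π := by
    intro n
    induction n using Int.induction_on with
    | zero => exact ⟨p, .refl _, by simp⟩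
    | succ n ih =>
      obtain ⟨q, h1, h2⟩ := ih
      refine ⟨g π q, .trans _ _ _ h1 (.rel _ _ rfl), ?_⟩
      simp only [g, h2, add_smul, one_smul, add_assoc]
    | pred n ih =>
      obtain ⟨q, h1, h2⟩ := ih
      refine ⟨g (-π) q, .trans _ _ _ h1 (.symm _ _ (.rel _ _ (by simp [g]))), ?_⟩
      simp only [g, h2, sub_smul, one_smul]; ring
  obtain ⟨n, hn, -⟩ := existsUnique_add_zsmul_mem_Ico pi_pos p.1 0
  obtain ⟨q, h1, h2⟩ := this n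
  exact ⟨q, h1, h2 ▸ ⟨hn.1, by linarith [hn.2]⟩⟩

noncomputable def Y (κ : ℝ) (p : ℝ × ℝ) (i : Fin 3) : ℝ :=
  κ * c0 (sin p.1) (cos p.1) i + p.2 * DD p.1 i

theorem Y_g (κ : ℝ) (p : ℝ × ℝ) : Y κ (g π p) = Y κ p := by
  ext i
  simp only [Y, g, sin_add_pi, cos_add_pi, c0_neg, DD_pi]; ring

theorem alg_Y (κ : ℝ) (i : Fin 3) : Alg fun p => Y κ p i :=
  ((Alg.const κ).mul (alg_c0 i)).add (Alg.snd.mul (alg_DD i))

theorem cd_Y (κ : ℝ) : ContDiff ℝ ∞ (Y κ) := contDiff_pi.mpr fun i => (alg_Y κ i).cd.of_le le_top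

theorem dY (κ : ℝ) {s : ℝ → ℝ} {s' : ℝ} (p : ℝ × ℝ) (hs : HasDerivAt s s' p.2) (i : Fin 3) :
    HasFDerivAt (fun q : ℝ × ℝ => Y κ (q.1, s q.2) i)
      (((κ * rho p.1 + s p.2 * deriv eta p.1) * tt p.1 i) • ContinuousLinearMap.fst ℝ ℝ ℝ +
        (s' * DD p.1 i) • ContinuousLinearMap.snd ℝ ℝ ℝ) p := by
  have f1 : HasFDerivAt Prod.fst (ContinuousLinearMap.fst ℝ ℝ ℝ) p := hasFDerivAt_fst
  have f2 : HasFDerivAt Prod.snd (ContinuousLinearMap.snd ℝ ℝ ℝ) p := hasFDerivAt_snd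
  have h1 := ((dc0 i p.1).comp_hasFDerivAt p f1).const_mul κ
  have h2 := (hs.comp_hasFDerivAt p f2).mul ((dDD i p.1).comp_hasFDerivAt p f1)
  refine (h1.add h2).congr_fderiv ?_
  have := rho_pos p.1
  ext <;> simp [tt] <;> field_simp

theorem quad (x A Bc : ℝ) : dot (fun i => A * tt x i + Bc * DD x i) (fun i => A * tt x i + Bc * DD x i)
    = (A + Bc * eta x) ^ 2 + Bc ^ 2 := by
  have h1 := tt_tt x
  have h2 := DD_tt x
  have h3 := DD_DD x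
  unfold dot at *
  linear_combination A ^ 2 * h1 + 2 * A * Bc * h2 + Bc ^ 2 * h3

theorem Y_imm {κ : ℝ} (hκ : 0 < κ) (x : ℝ) : Function.Injective (fderiv ℝ (Y κ) (x, 0)) := by
  rw [injective_iff_map_eq_zero]
  intro u hu
  have h := hasFDerivAt_pi.mpr fun i => dY κ (s := fun r => r) (x, 0) (hasDerivAt_id' _) i
  rw [show fderiv ℝ (Y κ) (x, 0) = _ from h.fderiv] at hu
  have h2 := quad x (κ * rho x * u.1) u.2
  have h3 : (fun i => κ * rho x * u.1 * tt x i + u.2 * DD x i) = 0 := by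
    ext i
    have := congrFun hu i
    simp at this ⊢
    linarith
  rw [h3] at h2
  simp only [dot, Pi.zero_apply, mul_zero, add_zero] at h2
  have h4 : u.2 = 0 := by nlinarith [sq_nonneg (κ * rho x * u.1 + u.2 * eta x)]
  rw [h4] at h2
  have h5 : κ * rho x * u.1 = 0 := by simpa using h2.symm
  have h6 := mul_pos hκ (rho_pos x)
  exact Prod.ext ((mul_eq_zero.mp h5).resolve_left h6.ne') h4

theorem Y_inj {κ : ℝ} (hκ : 0 < κ) : ∀ᶠ s : ℝ × ℝ in 𝓝 0, ∀ x ∈ Icc (0 : ℝ) π ×ˢ Icc (0 : ℝ) π,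
    Y κ (x.1, s.1) = Y κ (x.2, s.2) →
      (x.2, s.2) = (x.1, s.1) ∨ (x.2, s.2) = g π (x.1, s.1) ∨ (x.1, s.1) = g π (x.2, s.2) := by
  apply (isCompact_Icc.prod isCompact_Icc).eventually_forall_of_forall_eventually
  rintro ⟨x, y⟩ ⟨hx, hy⟩
  dsimp only at hx hy
  have cY := (cd_Y κ).continuous
  by_cases h : c0 (sin x) (cos x) = c0 (sin y) (cos y)
  · rcases c0_inj hx hy h with h1 | h1 | h1
    · have t : Tendsto (fun z : (ℝ × ℝ) × (ℝ × ℝ) => ((z.2.1, z.1.1), (z.2.2, z.1.2)))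
          (𝓝 (0, (x, y))) (𝓝 ((x, 0), (x, 0))) :=
        Continuous.tendsto' (by fun_prop) _ _ (by simp [h1])
      exact (t.eventually (loc_inj (cd_Y κ) _ (Y_imm hκ x))).mono fun z hz e => .inl (hz e).symm
    · have t : Tendsto (fun z : (ℝ × ℝ) × (ℝ × ℝ) => (g π (z.2.1, z.1.1), (z.2.2, z.1.2)))
          (𝓝 (0, (x, y))) (𝓝 ((y, 0), (y, 0))) :=
        Continuous.tendsto' (by unfold g; fun_prop) _ _ (by simp [h1, g])
      exact (t.eventually (loc_inj (cd_Y κ) _ (Y_imm hκ y))).mono fun z hz e =>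
        .inr (.inl (hz ((Y_g κ _).trans e)).symm)
    · have t : Tendsto (fun z : (ℝ × ℝ) × (ℝ × ℝ) => ((z.2.1, z.1.1), g π (z.2.2, z.1.2)))
          (𝓝 (0, (x, y))) (𝓝 ((x, 0), (x, 0))) :=
        Continuous.tendsto' (by unfold g; fun_prop) _ _ (by simp [h1, g])
      exact (t.eventually (loc_inj (cd_Y κ) _ (Y_imm hκ x))).mono fun z hz e =>
        .inr (.inr (hz (e.trans (Y_g κ _).symm)))
  · have hne : Y κ (x, 0) ≠ Y κ (y, 0) := fun e => h (funext fun i => by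
      have := congrFun e i
      simp only [Y, zero_mul, add_zero] at this
      exact mul_left_cancel₀ hκ.ne' this)
    have c1 : Continuous fun z : (ℝ × ℝ) × (ℝ × ℝ) => Y κ (z.2.1, z.1.1) := by fun_prop
    have c2 : Continuous fun z : (ℝ × ℝ) × (ℝ × ℝ) => Y κ (z.2.2, z.1.2) := by fun_prop
    filter_upwards [(isOpen_ne_fun c1 c2).mem_nhds (x := (0, (x, y))) hne] with z hz e
    exact absurd e hz

theorem deta_pi (x : ℝ) : deriv eta (x + π) = -deriv eta x := by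
  rw [← deriv_comp_add_const, funext eta_pi, deriv.fun_neg]

theorem small {κ : ℝ} (hκ : 0 < κ) : ∃ δ > 0, (∀ x s, |s| < δ → 0 < κ * rho x + s * deriv eta x) ∧
    ∀ p q : ℝ × ℝ, p.1 ∈ Icc 0 π → q.1 ∈ Icc 0 π → |p.2| < δ → |q.2| < δ → Y κ p = Y κ q →
      q = p ∨ q = g π p ∨ p = g π q := by
  have c1 : Continuous rho := alg_rho.cd1.continuous
  have c2 : Continuous (deriv eta) := alg_eta.cd1.continuous_deriv (by simp)
  have h1 : ∀ᶠ s : ℝ × ℝ in 𝓝 0, ∀ x ∈ Icc (0 : ℝ) π, 0 < κ * rho x + s.1 * deriv eta x := by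
    apply isCompact_Icc.eventually_forall_of_forall_eventually
    intro x _
    have c3 : Continuous fun z : (ℝ × ℝ) × ℝ => κ * rho z.2 + z.1.1 * deriv eta z.2 := by fun_prop
    exact (isOpen_lt continuous_const c3).mem_nhds (by simpa using mul_pos hκ (rho_pos x))
  obtain ⟨δ, hδ, h⟩ := Metric.eventually_nhds_iff.mp (h1.and (Y_inj hκ))
  refine ⟨δ, hδ, fun x s hs => ?_, fun p q hp hq h1 h2 e => ?_⟩
  · obtain ⟨q, e, hq⟩ := red (x, s)
    have e1 := e.inv (h := fun p => |p.2|) (by simp [g])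
    have e2 := e.inv (h := fun p => κ * rho p.1 + p.2 * deriv eta p.1)
      (by simp [g, rho_pi, deta_pi])
    simp only at e1 e2
    rw [e2]
    exact (h (y := (q.2, 0)) (by simpa [← e1, hδ] using hs)).1 _ hq
  · exact (h (y := (p.2, q.2)) (by simp [Prod.dist_eq, h1, h2])).2 (p.1, q.1) ⟨hp, hq⟩ e

end Pool.Agent.H.MP_1b7163_gt
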