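import Pool.Agent.H.MP_1b7163_gt.C

namespace Pool.Agent.H.MP_1b7163_gt

open Real Filter Topology Set
open scoped ContDiff

noncomputable def sp (ε r : ℝ) : ℝ := ε * r / (1 + r ^ 2)
noncomputable def sp1 (ε r : ℝ) : ℝ := ε * (1 - r ^ 2) / (1 + r ^ 2) ^ 2
noncomputable def mu (ε r : ℝ) : ℝ := √(sp1 ε r ^ 2 + (2 * r) ^ 2)

theorem dsp (ε r : ℝ) : HasDerivAt (sp ε) (sp1 ε r) r := by
  have h : (1 + r ^ 2) ≠ 0 := by positivity
  refine (((hasDerivAt_id' r).const_mul ε).div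
    (((hasDerivAt_id' r).pow 2).const_add 1) h).congr_deriv ?_
  simp [sp1]
  field_simp
  ring

theorem sp_neg (ε r : ℝ) : sp ε (-r) = -sp ε r := by simp only [sp]; ring

theorem sp_lt {ε : ℝ} (hε : 0 < ε) (r : ℝ) : |sp ε r| < ε := by
  have h : 0 < 1 + r ^ 2 := by positivity
  rw [sp, abs_lt, lt_div_iff₀ h, div_lt_iff₀ h]
  constructor <;> nlinarith [mul_pos hε (show 0 < 1 + r + r ^ 2 by nlinarith [sq_nonneg (r + 1)]),
    mul_pos hε (show 0 < 1 - r + r ^ 2 by nlinarith [sq_nonneg (r - 1)])]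

theorem mu_pos0 {ε : ℝ} (hε : 0 < ε) (r : ℝ) : 0 < sp1 ε r ^ 2 + (2 * r) ^ 2 := by
  by_cases h : r = 0
  · simp [sp1, h, pow_pos hε]
  · positivity

theorem cd_mu {ε : ℝ} (hε : 0 < ε) : ContDiff ℝ ∞ (mu ε) := by
  refine ContDiff.sqrt ?_ fun r => (mu_pos0 hε r).ne'
  have : ContDiff ℝ ∞ (sp1 ε) := ContDiff.div (by fun_prop) (by fun_prop) fun r => by positivity
  fun_prop

theorem alg_sp (ε : ℝ) : Alg fun p => sp ε p.2 :=
  ((Alg.const ε).mul Alg.snd).div ((Alg.const 1).add (Alg.snd.pow 2)) fun p => by positivity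

theorem lam {ε : ℝ} (hε : 0 < ε) : ∃ l : ℝ → ℝ, ContDiff ℝ ∞ l ∧ (∀ r, HasDerivAt l (mu ε r) r) ∧
    (∀ r, l (-r) = -l r) ∧ Function.Bijective l := by
  obtain ⟨F, h1, h2⟩ := prim (cd_mu hε)
  have ev : ∀ r, mu ε (-r) = mu ε r := fun r => by simp [mu, sp1]
  have d : ∀ r, HasDerivAt (fun r => (F r - F (-r)) / 2) (mu ε r) r := fun r => by
    have := (h2 (-r)).comp r (hasDerivAt_neg r)
    refine (((h2 r).sub this).div_const 2).congr_deriv ?_
    rw [ev]; ring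
  refine ⟨fun r => (F r - F (-r)) / 2, by fun_prop, d, fun r => by simp only [neg_neg]; ring, ?_, ?_⟩
  · exact (strictMono_of_deriv_pos fun r => by
      rw [(d r).deriv]; exact sqrt_pos.mpr (mu_pos0 hε r)).injective
  · have c : Continuous fun r => (F r - F (-r)) / 2 := by have := h1.continuous; fun_prop
    have m : Monotone fun r => (F r - F (-r)) / 2 - r ^ 2 := monotone_of_deriv_nonneg
      (fun r => ((d r).sub ((hasDerivAt_id' r).pow 2)).differentiableAt) fun r => by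
        have e : HasDerivAt (fun r => (F r - F (-r)) / 2 - r ^ 2) (mu ε r - 2 * r) r :=
          ((d r).sub ((hasDerivAt_id' r).pow 2)).congr_deriv (by simp)
        rw [e.deriv, sub_nonneg]
        exact le_sqrt_of_sq_le (by nlinarith [sq_nonneg (sp1 ε r)])
    have t : Tendsto (fun r => (F r - F (-r)) / 2) atTop atTop := by
      refine tendsto_atTop_mono' _ ?_ (tendsto_pow_atTop (α := ℝ) two_ne_zero)
      filter_upwards [eventually_ge_atTop 0] with r hr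
      have := m hr
      simp at this
      linarith
    refine c.surjective t ?_
    have t2 := tendsto_neg_atTop_atBot.comp (t.comp tendsto_neg_atBot_atTop)
    refine t2.congr fun r => ?_
    simp only [Function.comp, neg_neg]; ring

theorem surj {f : ℝ → ℝ} (hc : Continuous f) (hm : Monotone f) {a b : ℝ} (hb : 0 < b)
    (h : ∀ x, f (x + a) = f x + b) : Function.Surjective f := by
  have h1 : ∀ n : ℕ, ∀ x, f (x + n * a) = f x + n * b := by
    intro n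
    induction n with
    | zero => simp
    | succ n ih => intro x; push_cast; rw [add_mul, one_mul, ← add_assoc, h, ih]; ring
  refine hc.surjective (hm.tendsto_atTop_atTop fun y => ?_) (hm.tendsto_atBot_atBot fun y => ?_)
  · obtain ⟨n, hn⟩ := exists_nat_ge ((y - f 0) / b)
    rw [div_le_iff₀ hb] at hn
    exact ⟨0 + n * a, by rw [h1]; linarith⟩
  · obtain ⟨n, hn⟩ := exists_nat_ge ((f 0 - y) / b)
    rw [div_le_iff₀ hb] at hn
    have := h1 n (-(n * a))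
    rw [neg_add_cancel] at this
    exact ⟨-(n * a), by linarith⟩

noncomputable def xs (κ ε : ℝ) (i : Fin 4) (p : ℝ × ℝ) : ℝ :=
  ![Y κ (p.1, sp ε p.2) 0, Y κ (p.1, sp ε p.2) 1, Y κ (p.1, sp ε p.2) 2, p.2 ^ 2] i

noncomputable def Xt (κ ε : ℝ) (p : ℝ × ℝ) : EuclideanSpace ℝ (Fin 4) :=
  WithLp.toLp 2 fun i => xs κ ε i p

theorem alg_xs (κ ε : ℝ) (i : Fin 4) : Alg (xs κ ε i) := by
  have h : ∀ j, Alg fun p => Y κ (p.1, sp ε p.2) j := fun j =>
    ((Alg.const κ).mul (alg_c0 j)).add ((alg_sp ε).mul (alg_DD j))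
  fin_cases i
  · exact h 0
  · exact h 1
  · exact h 2
  · exact Alg.snd.pow 2

theorem cd_Xt (κ ε : ℝ) : ContDiff ℝ ∞ (Xt κ ε) :=
  contDiff_euclidean.mpr fun i => (alg_xs κ ε i).cd.of_le le_top

theorem Xt_g (κ ε : ℝ) (p : ℝ × ℝ) : Xt κ ε (g π p) = Xt κ ε p := by
  have : Y κ ((g π p).1, sp ε (g π p).2) = Y κ (p.1, sp ε p.2) := by
    rw [← Y_g κ (p.1, sp ε p.2)]; simp only [g, sp_neg]
  simp only [Xt, xs, this]
  simp [g]

theorem dXt (κ ε : ℝ) (p u : ℝ × ℝ) : ‖fderiv ℝ (Xt κ ε) p u‖ ^ 2 =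
    ((κ * rho p.1 + sp ε p.2 * deriv eta p.1) * u.1 + sp1 ε p.2 * u.2 * eta p.1) ^ 2 +
      (sp1 ε p.2 ^ 2 + (2 * p.2) ^ 2) * u.2 ^ 2 := by
  have hd := ((cd_Xt κ ε).differentiable (by simp) p).hasFDerivAt
  have h : ∀ i, fderiv ℝ (Xt κ ε) p u i = fderiv ℝ (xs κ ε i) p u := fun i => by
    have := ((EuclideanSpace.proj (𝕜 := ℝ) i).hasFDerivAt.comp p hd).fderiv
    rw [show fderiv ℝ (xs κ ε i) p = _ from this]; rfl
  have h3 : HasFDerivAt (fun q : ℝ × ℝ => q.2 ^ 2) ((2 * p.2) • ContinuousLinearMap.snd ℝ ℝ ℝ) p := by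
    have f2 : HasFDerivAt Prod.snd (ContinuousLinearMap.snd ℝ ℝ ℝ) p := hasFDerivAt_snd
    refine (f2.pow 2).congr_fderiv ?_
    ext <;> simp
  rw [EuclideanSpace.real_norm_sq_eq, Fin.sum_univ_four, h, h, h, h,
    show fderiv ℝ (xs κ ε 0) p = _ from (dY κ p (dsp ε p.2) 0).fderiv,
    show fderiv ℝ (xs κ ε 1) p = _ from (dY κ p (dsp ε p.2) 1).fderiv,
    show fderiv ℝ (xs κ ε 2) p = _ from (dY κ p (dsp ε p.2) 2).fderiv,
    show fderiv ℝ (xs κ ε 3) p = _ from h3.fderiv]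
  have := quad p.1 ((κ * rho p.1 + sp ε p.2 * deriv eta p.1) * u.1) (sp1 ε p.2 * u.2)
  simp only [dot] at this
  simp
  linear_combination this

theorem box (κ : ℝ) {ε : ℝ} (hε : 0 < ε) : ∀ y ∈ Icc 0 (ε / 5), ∀ z ∈ Icc (1 : ℝ) 4,
    ∃ p, xs κ ε 2 p = y ∧ xs κ ε 3 p = z := by
  intro y hy z hz
  have h1 : √z ^ 2 = z := sq_sqrt (by linarith [hz.1])
  have h2 : 1 ≤ √z := le_sqrt_of_sq_le (by linarith [hz.1])
  have h3 : ε / 5 ≤ sp ε √z := by
    rw [sp, h1, div_le_div_iff₀ (by norm_num) (by linarith [hz.1])]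
    nlinarith [hz.2]
  have c : Continuous fun x => Y κ (x, sp ε √z) 2 := by
    have := (cd_Y κ).continuous
    fun_prop
  have e0 : ∀ s, Y κ (0, s) 2 = s := fun s => by simp [Y, c0, DD_zero]
  have e1 : Y κ (π, sp ε √z) 2 = -sp ε √z := by
    rw [← e0 (-sp ε √z), ← Y_g κ (0, _)]; simp [g]
  obtain ⟨x, -, hx⟩ := intermediate_value_Icc' pi_pos.le c.continuousOn
    (show y ∈ Icc _ _ from ⟨by rw [e1]; linarith [hy.1], by rw [e0]; linarith [hy.2]⟩)
  exact ⟨(x, √z), hx, h1⟩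

theorem Xt_inj {κ ε : ℝ} (hε : 0 < ε)
    (h : ∀ p q : ℝ × ℝ, p.1 ∈ Icc 0 π → q.1 ∈ Icc 0 π → |p.2| < ε → |q.2| < ε → Y κ p = Y κ q →
      q = p ∨ q = g π p ∨ p = g π q) (p q : ℝ × ℝ) (e : Xt κ ε p = Xt κ ε q) : Ev p q := by
  obtain ⟨p', e1, hp⟩ := red p
  obtain ⟨q', e2, hq⟩ := red q
  rw [e1.inv (Xt_g κ ε), e2.inv (Xt_g κ ε)] at e
  refine .trans _ _ _ e1 (.trans _ _ _ ?_ (.symm _ _ e2))
  have e' : ∀ i, xs κ ε i p' = xs κ ε i q' := fun i => congrArg (fun v => v.ofLp i) e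
  have e3 : p'.2 ^ 2 = q'.2 ^ 2 := e' 3
  have e4 : Y κ (p'.1, sp ε p'.2) = Y κ (q'.1, sp ε q'.2) := by
    ext j
    fin_cases j
    · exact e' 0
    · exact e' 1
    · exact e' 2
  have k : ∀ a b : ℝ, a ^ 2 = b ^ 2 → sp ε a = sp ε b → a = b := fun a b h1 h2 => by
    have : 0 < 1 + b ^ 2 := by positivity
    rw [sp, sp, h1, div_left_inj' this.ne'] at h2
    exact mul_left_cancel₀ hε.ne' h2
  rcases h (p'.1, sp ε p'.2) (q'.1, sp ε q'.2) hp hq (sp_lt hε _) (sp_lt hε _) e4 with h1 | h1 | h1 <;>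
    simp only [g, Prod.mk.injEq, ← sp_neg] at h1
  · rw [Prod.ext h1.1 (k _ _ e3.symm h1.2)]; exact .refl _
  · exact .rel _ _ (Prod.ext h1.1 (k _ _ (by simp [g, e3]) h1.2))
  · exact .symm _ _ (.rel _ _ (Prod.ext h1.1 (k _ _ (by simp [g, e3]) h1.2)))

theorem Xt_closed (κ ε : ℝ) {G : Set (ℝ × ℝ)} (hG : IsClosed G) (h : ∀ p, g π p ∈ G ↔ p ∈ G) :
    IsClosed (Xt κ ε '' G) := by
  refine isClosed_of_closure_subset fun y hy => ?_
  have hK : IsCompact (G ∩ Icc 0 π ×ˢ Icc (-(|y 3| + 2)) (|y 3| + 2)) :=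
    (isCompact_Icc.prod isCompact_Icc).inter_left hG
  have h1 := (hK.image (cd_Xt κ ε).continuous).isClosed
  have hU : IsOpen {v : EuclideanSpace ℝ (Fin 4) | v 3 < y 3 + 1} :=
    isOpen_lt (by fun_prop) continuous_const
  have h2 := hU.inter_closure ⟨show y 3 < y 3 + 1 by linarith, hy⟩
  refine image_mono inter_subset_left (h1.closure_subset (closure_mono ?_ h2))
  rintro _ ⟨hv, p, hp, rfl⟩
  obtain ⟨q, e, hq⟩ := red p
  have e1 := e.inv (Xt_g κ ε)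
  refine ⟨q, ⟨(e.inv (h := fun p => p ∈ G) fun p => propext (h p)).mp hp, hq, ?_⟩, e1.symm⟩
  rw [e1] at hv
  have : q.2 ^ 2 < y 3 + 1 := hv
  have h3 := le_abs_self (y 3)
  have h4 := abs_nonneg (y 3)
  constructor <;> nlinarith

theorem chart {w : ℝ} (hw : 0 < w) : ∃ (κ ε : ℝ) (e : ℝ × ℝ ≃ₜ ℝ × ℝ), 0 < ε ∧
    (∀ p q, Xt κ ε p = Xt κ ε q → Ev p q) ∧ (∀ p, e (g π p) = g w (e p)) ∧ ContDiff ℝ ∞ e ∧
    ContDiff ℝ ∞ e.symm ∧ (∀ p, Function.Surjective (fderiv ℝ e p)) ∧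
    ∀ p u, ‖fderiv ℝ (Xt κ ε) p u‖ ^ 2 = (fderiv ℝ e p u).1 ^ 2 + (fderiv ℝ e p u).2 ^ 2 := by
  obtain ⟨σ, s1, s2⟩ := prim alg_rho.cd1
  have sm : StrictMono σ := strictMono_of_deriv_pos fun x => by rw [(s2 x).deriv]; exact rho_pos x
  have hL : 0 < σ π - σ 0 := sub_pos.mpr (sm pi_pos)
  have s3 : ∀ x, σ (x + π) = σ x + (σ π - σ 0) := fun x => by
    have d : ∀ x, HasDerivAt (fun x => σ (x + π) - σ x) 0 x := fun x =>
      (((s2 (x + π)).comp_add_const x π).sub (s2 x)).congr_deriv (by rw [rho_pi, sub_self])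
    have := is_const_of_deriv_eq_zero (fun x => (d x).differentiableAt) (fun x => (d x).deriv) x 0
    simp only [zero_add] at this
    linarith
  obtain ⟨κ, hκ, hκw⟩ : ∃ κ, 0 < κ ∧ κ * (σ π - σ 0) = w := ⟨w / (σ π - σ 0), div_pos hw hL,
    div_mul_cancel₀ _ hL.ne'⟩
  obtain ⟨ε, hε, h1, h2⟩ := small hκ
  obtain ⟨l, l1, l2, l3, l4⟩ := lam hε
  have ce := alg_eta.cd1
  have de : ∀ x, HasDerivAt eta (deriv eta x) x := fun x =>
    (ce.differentiable (by simp) x).hasDerivAt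
  let Ψ : ℝ × ℝ → ℝ × ℝ := fun p => (κ * σ p.1 + sp ε p.2 * eta p.1, l p.2)
  have cΨ : ContDiff ℝ ∞ Ψ := by
    have : ContDiff ℝ ∞ fun p : ℝ × ℝ => sp ε p.2 := (alg_sp ε).cd.of_le le_top
    fun_prop
  have dΨ : ∀ p u, fderiv ℝ Ψ p u =
      ((κ * rho p.1 + sp ε p.2 * deriv eta p.1) * u.1 + sp1 ε p.2 * u.2 * eta p.1,
        mu ε p.2 * u.2) := fun p u => by
    have f1 : HasFDerivAt Prod.fst (ContinuousLinearMap.fst ℝ ℝ ℝ) p := hasFDerivAt_fst
    have f2 : HasFDerivAt Prod.snd (ContinuousLinearMap.snd ℝ ℝ ℝ) p := hasFDerivAt_snd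
    have := (((((s2 p.1).comp_hasFDerivAt p f1).const_mul κ).add
      (((dsp ε p.2).comp_hasFDerivAt p f2).mul ((de p.1).comp_hasFDerivAt p f1))).prodMk
      ((l2 p.2).comp_hasFDerivAt p f2)).fderiv
    rw [show fderiv ℝ Ψ p = _ from this]
    ext <;> simp <;> ring
  have iΨ : ∀ p, Function.Injective (fderiv ℝ Ψ p) := fun p => by
    rw [injective_iff_map_eq_zero]
    intro u hu
    rw [dΨ, Prod.mk_eq_zero] at hu
    have a1 : u.2 = 0 := (mul_eq_zero.mp hu.2).resolve_left (sqrt_pos.mpr (mu_pos0 hε _)).ne'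
    have a2 := hu.1
    rw [a1, mul_zero, zero_mul, add_zero] at a2
    exact Prod.ext ((mul_eq_zero.mp a2).resolve_left (h1 _ _ (sp_lt hε _)).ne') a1
  have m : ∀ r, StrictMono fun x => κ * σ x + sp ε r * eta x := fun r =>
    strictMono_of_deriv_pos fun x => by
      rw [show deriv (fun x => κ * σ x + sp ε r * eta x) x = _ from
        (((s2 x).const_mul κ).add ((de x).const_mul (sp ε r))).deriv]
      exact h1 _ _ (sp_lt hε _)
  have bΨ : Function.Bijective Ψ := by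
    constructor
    · rintro ⟨x, r⟩ ⟨y, r'⟩ e
      simp only [Ψ, Prod.mk.injEq] at e
      obtain rfl := l4.1 e.2
      rw [(m r).injective e.1]
    · rintro ⟨v, t⟩
      obtain ⟨r, rfl⟩ := l4.2 t
      have c1 := s1.continuous
      have c2 := ce.continuous
      obtain ⟨x, hx⟩ := surj (f := fun x => κ * σ x + sp ε r * eta x) (by fun_prop) (m r).monotone
        (a := π + π) (b := w + w) (by linarith) (fun x => by
          simp only [← add_assoc, eta_pi, neg_neg]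
          rw [s3, s3 x]; linear_combination 2 * hκw) v
      exact ⟨(x, r), Prod.ext hx rfl⟩
  obtain ⟨e, e1, e2⟩ := diffeo cΨ bΨ iΨ
  refine ⟨κ, ε, e, hε, Xt_inj hε h2, fun p => ?_, e1 ▸ cΨ, e2, fun p => ?_, fun p u => ?_⟩
  · rw [e1]
    simp only [Ψ, g, sp_neg, eta_pi, l3, Prod.mk.injEq, and_true]
    rw [s3]; linear_combination hκw
  · rw [e1]
    exact LinearMap.injective_iff_surjective.mp (show Function.Injective
      (fderiv ℝ Ψ p).toLinearMap from iΨ p)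
  · rw [e1, dXt, dΨ, mul_pow (mu ε p.2), mu, sq_sqrt (mu_pos0 hε _).le]

theorem final (w : ℝ) (hw : 0 < w) :
    ∃ X : Quot (fun p q : ℝ × ℝ => q = (p.1 + w, -p.2)) → EuclideanSpace ℝ (Fin 4),
      IsEmbedding X ∧ ContDiff ℝ ∞ (fun p : ℝ × ℝ => X (Quot.mk _ p)) ∧
      (∀ p u : ℝ × ℝ,
        ‖fderiv ℝ (fun p : ℝ × ℝ => X (Quot.mk _ p)) p u‖ ^ 2 = u.1 ^ 2 + u.2 ^ 2) ∧
      ∃ P : Finset (MvPolynomial (Fin 4) ℝ),
        (∀ m, ∀ f ∈ P, MvPolynomial.eval (fun i => X m i) f = 0) ∧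
        ringKrullDim (MvPolynomial (Fin 4) ℝ ⧸ MvPolynomial.vanishingIdeal ℝ
          {y : Fin 4 → ℝ | ∀ f ∈ P, MvPolynomial.eval y f = 0}) = 2 := by
  obtain ⟨κ, ε, e, hε, h1, h2, h3, h4, h5, h6⟩ := chart hw
  have h7 : ∀ p, e.symm (g w p) = g π (e.symm p) := fun p => by
    rw [e.symm_apply_eq, h2, e.apply_symm_apply]
  have cX := (cd_Xt κ ε).comp h4
  have h8 : ∀ z, Quot.mk (fun p q : ℝ × ℝ => q = (p.1 + w, -p.2)) (e (g π z)) =
      Quot.mk (fun p q : ℝ × ℝ => q = (p.1 + w, -p.2)) (e z) := fun z =>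
    (Quot.sound (r := fun p q : ℝ × ℝ => q = (p.1 + w, -p.2)) (h2 z)).symm
  refine ⟨Quot.lift (Xt κ ε ∘ e.symm) ?_, ?_, cX, fun p u => ?_, ?_⟩
  · rintro p _ rfl
    exact ((congrArg (Xt κ ε) (h7 p)).trans (Xt_g κ ε _)).symm
  · refine (IsClosedEmbedding.of_continuous_injective_isClosedMap
      (continuous_quot_lift _ cX.continuous) ?_ fun F hF => ?_).isEmbedding
    · rintro ⟨p⟩ ⟨q⟩ h
      have := (h1 _ _ h).inv (h := fun z => Quot.mk (fun p q : ℝ × ℝ => q = (p.1 + w, -p.2)) (e z))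
        h8
      simpa using this
    · have := Xt_closed κ ε (hF.preimage (continuous_quot_mk.comp e.continuous)) fun z => by
        simp only [mem_preimage, Function.comp, h8]
      refine (congrArg IsClosed (Set.ext fun y => ?_)).mpr this
      constructor
      · rintro ⟨⟨p⟩, hp, rfl⟩
        exact ⟨e.symm p, by simpa using hp, rfl⟩
      · rintro ⟨p, hp, rfl⟩
        exact ⟨_, hp, by simp⟩
  · obtain ⟨q, rfl⟩ := e.surjective p
    obtain ⟨v, rfl⟩ := h5 q u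
    rw [← h6]
    have a1 := (cX.differentiable (by simp) (e q)).hasFDerivAt.comp q
      (h3.differentiable (by simp) q).hasFDerivAt
    have a2 : (Xt κ ε ∘ e.symm) ∘ e = Xt κ ε := by ext1; simp
    rw [a2] at a1
    rw [a1.fderiv]; rfl
  · obtain ⟨P, p1, p2⟩ := algebraic (xs κ ε) (alg_xs κ ε) (by positivity) (box κ hε)
    refine ⟨P, ?_, p2⟩
    rintro ⟨p⟩
    exact p1 (e.symm p)

end Pool.Agent.H.MP_1b7163_gt
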